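import Mathlib
import Pool.Agent.H14.Leonard2

set_option autoImplicit false

namespace Pool.Agent.Results.MP_f77be9_al.Counter

open Pool.Agent.H14.Leonard Matrix

/-- some antiautomorphism of the K-algebra R fixes x and sends the commutator of x, y to a scalar
multiple of the commutator of x, z -/
def Anti (K : Type) {R : Type} [Field K] [Ring R] [Algebra K R] (x y z : R) : Prop :=
  ∃ σ : R ≃ₗ[K] R, (∀ X Y, σ (X * Y) = σ Y * σ X) ∧ σ x = x ∧
    ∃ c : K, σ (x * y - y * x) = c • (x * z - z * x)

theorem result : ∃ x y z : Module.End ℚ (Fin 3 → ℚ), Triple x y z ∧ ¬ Anti ℚ x y z := by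
  refine ⟨_, _, _, tripleZ, fun ⟨σ, h1, h2, c, h3⟩ => ?_⟩
  have key : ∀ X Y U V : M3, ∀ a b : ℚ, X * Y - Y * X = a • U - b • V →
      toLin' X * toLin' Y - toLin' Y * toLin' X = a • toLin' U - b • toLin' V := by
    intro X Y U V a b h
    rw [Module.End.mul_eq_comp, Module.End.mul_eq_comp, ← toLin'_mul, ← toLin'_mul, ← map_sub, h,
      map_sub, map_smul, map_smul]
  rw [key mH mA mE mF 2 2 (by decide +kernel), key mH mZ mE mF 6 8 (by decide +kernel)] at h3
  have h := anti (toLin' mH) (toLin' mE) (toLin' mF)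
    (by simpa using key mH mE mE mF 2 0 (by decide +kernel))
    (by simpa using key mH mF mE mF 0 2 (by decide +kernel))
    (by simpa using key mE mF mH mF 1 0 (by decide +kernel)) σ.toLinearMap h1 h2 c h3
  have h4 : mH = 0 := toLin'.injective (by simpa using h)
  revert h4
  decide +kernel

end Pool.Agent.Results.MP_f77be9_al.Counter
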